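import Mathlib

set_option autoImplicit false

namespace Pool.Agent.MinRamsey

open SimpleGraph

/-- `Arrows G N`: every colouring of the edges of `K_N` with two colours contains a monochromatic
copy of `G`. The colouring is given by the graph `H` of the edges of the first colour; the edges
of the second colour are those of the complement `Hᶜ`. `G ⊑ H` is Mathlib's
`SimpleGraph.IsContained`: `H` has a (not necessarily induced) subgraph isomorphic to `G`. -/
def Arrows {V : Type} (G : SimpleGraph V) (N : ℕ) : Prop :=
  ∀ H : SimpleGraph (Fin N), G ⊑ H ∨ G ⊑ Hᶜ

/-- The Ramsey number `r(G)`: the least `N` such that every two-colouring of the edges of `K_N`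
contains a monochromatic copy of `G`. -/
noncomputable def ramseyNumber {V : Type} (G : SimpleGraph V) : ℕ := sInf {N | Arrows G N}

/-- `minRamsey n` is `f(n) = min r(G)` over the graphs `G` with exactly `n` vertices and no
isolated vertex. -/
noncomputable def minRamsey (n : ℕ) : ℕ :=
  sInf {r | ∃ G : SimpleGraph (Fin n), (∀ v, ∃ w, G.Adj v w) ∧ ramseyNumber G = r}

end Pool.Agent.MinRamsey
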