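import Pool.Agent.helper44.MinRamsey.Defs

set_option autoImplicit false

namespace Pool.Agent.MinRamsey

open SimpleGraph Finset

/-! ### Finite Ramsey theorem: the Ramsey numbers are well defined -/

lemma ramsey_aux {V : Type} (H : SimpleGraph V) : ∀ (m a b : ℕ), a + b = m →
    ∀ S : Finset V, 2 ^ m ≤ S.card →
    (∃ T ⊆ S, T.card = a ∧ ∀ x ∈ T, ∀ y ∈ T, x ≠ y → H.Adj x y) ∨
    (∃ T ⊆ S, T.card = b ∧ ∀ x ∈ T, ∀ y ∈ T, x ≠ y → ¬ H.Adj x y) := by
  classical
  intro m
  induction m with
  | zero =>
    intro a b hab S _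
    left
    exact ⟨∅, empty_subset _, by simp; omega, by simp⟩
  | succ m ih =>
    intro a b hab S hS
    rcases Nat.eq_zero_or_pos a with ha | ha
    · left; exact ⟨∅, empty_subset _, by simp; omega, by simp⟩
    rcases Nat.eq_zero_or_pos b with hb | hb
    · right; exact ⟨∅, empty_subset _, by simp; omega, by simp⟩
    have hpow : 2 ^ (m + 1) = 2 * 2 ^ m := by ring
    have hpm : 1 ≤ 2 ^ m := Nat.one_le_two_pow
    rw [hpow] at hS
    obtain ⟨v, hv⟩ : S.Nonempty := by rw [← card_pos]; omega
    set S1 := (S.erase v).filter (fun w => H.Adj v w) with hS1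
    set S2 := (S.erase v).filter (fun w => ¬ H.Adj v w) with hS2
    have hsum : S1.card + S2.card = S.card - 1 := by
      rw [hS1, hS2, Finset.card_filter_add_card_filter_not, card_erase_of_mem hv]
    by_cases h1 : 2 ^ m ≤ S1.card
    · rcases ih (a - 1) b (by omega) S1 h1 with ⟨T, hT, hTc, hTa⟩ | ⟨T, hT, hTc, hTa⟩
      · left
        have hTv : ∀ w ∈ T, w ∈ S ∧ w ≠ v ∧ H.Adj v w := by
          intro w hw
          have := hT hw
          rw [hS1, mem_filter, mem_erase] at this
          exact ⟨this.1.2, this.1.1, this.2⟩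
        have hvT : v ∉ T := fun h => (hTv v h).2.1 rfl
        refine ⟨insert v T, ?_, ?_, ?_⟩
        · intro w hw
          rw [mem_insert] at hw
          rcases hw with rfl | hw
          · exact hv
          · exact (hTv w hw).1
        · rw [card_insert_of_notMem hvT]; omega
        · intro x hx y hy hxy
          rw [mem_insert] at hx hy
          rcases hx with rfl | hx
          · rcases hy with rfl | hy
            · exact absurd rfl hxy
            · exact (hTv y hy).2.2
          · rcases hy with rfl | hy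
            · exact (hTv x hx).2.2.symm
            · exact hTa x hx y hy hxy
      · right
        refine ⟨T, ?_, hTc, hTa⟩
        intro w hw
        have := hT hw
        rw [hS1, mem_filter, mem_erase] at this
        exact this.1.2
    · have h2 : 2 ^ m ≤ S2.card := by omega
      rcases ih a (b - 1) (by omega) S2 h2 with ⟨T, hT, hTc, hTa⟩ | ⟨T, hT, hTc, hTa⟩
      · left
        refine ⟨T, ?_, hTc, hTa⟩
        intro w hw
        have := hT hw
        rw [hS2, mem_filter, mem_erase] at this
        exact this.1.2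
      · right
        have hTv : ∀ w ∈ T, w ∈ S ∧ w ≠ v ∧ ¬ H.Adj v w := by
          intro w hw
          have := hT hw
          rw [hS2, mem_filter, mem_erase] at this
          exact ⟨this.1.2, this.1.1, this.2⟩
        have hvT : v ∉ T := fun h => (hTv v h).2.1 rfl
        refine ⟨insert v T, ?_, ?_, ?_⟩
        · intro w hw
          rw [mem_insert] at hw
          rcases hw with rfl | hw
          · exact hv
          · exact (hTv w hw).1
        · rw [card_insert_of_notMem hvT]; omega
        · intro x hx y hy hxy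
          rw [mem_insert] at hx hy
          rcases hx with rfl | hx
          · rcases hy with rfl | hy
            · exact absurd rfl hxy
            · exact (hTv y hy).2.2
          · rcases hy with rfl | hy
            · exact fun h => (hTv x hx).2.2 h.symm
            · exact hTa x hx y hy hxy

lemma contained_of_clique {V : Type} (H : SimpleGraph V) {n : ℕ} (G : SimpleGraph (Fin n))
    (T : Finset V) (hT : T.card = n) (hTa : ∀ x ∈ T, ∀ y ∈ T, x ≠ y → H.Adj x y) : G ⊑ H := by
  classical
  let e : Fin n ≃ T := (Finset.equivFinOfCardEq hT).symm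
  refine ⟨⟨⟨fun v => (e v : V), ?_⟩, ?_⟩⟩
  · intro a b hab
    apply hTa _ (e a).2 _ (e b).2
    intro h
    have := e.injective (Subtype.ext h)
    exact hab.ne this
  · intro a b h
    exact e.injective (Subtype.ext h)

/-- finite Ramsey theorem -/
theorem exists_arrows {n : ℕ} (G : SimpleGraph (Fin n)) : ∃ N, Arrows G N := by
  classical
  refine ⟨2 ^ (n + n), fun H => ?_⟩
  rcases ramsey_aux H (n + n) n n rfl univ (by simp) with ⟨T, _, hTc, hTa⟩ | ⟨T, _, hTc, hTa⟩
  · left; exact contained_of_clique H G T hTc hTa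
  · right
    apply contained_of_clique Hᶜ G T hTc
    intro x hx y hy hxy
    rw [SimpleGraph.compl_adj]
    exact ⟨hxy, hTa x hx y hy hxy⟩

lemma Arrows.mono {n : ℕ} {G : SimpleGraph (Fin n)} {N N' : ℕ} (h : Arrows G N) (hN : N ≤ N') :
    Arrows G N' := by
  intro H
  have hinj : Function.Injective (Fin.castLE hN) := Fin.castLE_injective hN
  rcases h (H.comap (Fin.castLE hN)) with h | h
  · left
    obtain ⟨φ⟩ := h
    refine ⟨⟨⟨fun v => Fin.castLE hN (φ v), ?_⟩, ?_⟩⟩
    · intro a b hab
      exact φ.toHom.map_adj hab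
    · intro a b hab
      exact φ.injective (hinj hab)
  · right
    obtain ⟨φ⟩ := h
    refine ⟨⟨⟨fun v => Fin.castLE hN (φ v), ?_⟩, ?_⟩⟩
    · intro a b hab
      have := φ.toHom.map_adj hab
      rw [SimpleGraph.compl_adj] at this ⊢
      refine ⟨fun h => this.1 (hinj h), this.2⟩
    · intro a b hab
      exact φ.injective (hinj hab)

lemma lt_ramseyNumber {n : ℕ} (G : SimpleGraph (Fin n)) (N : ℕ) (h : ¬ Arrows G N) :
    N < ramseyNumber G := by
  by_contra hcon
  push Not at hcon
  have h1 : Arrows G (ramseyNumber G) := Nat.sInf_mem (exists_arrows G)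
  exact h (h1.mono hcon)

/-! ### The dichotomy on the domination number -/

/-- every `γ`-set leaves more than `x` vertices not dominated -/
def Undominated {N : ℕ} (H : SimpleGraph (Fin N)) (γ x : ℕ) : Prop :=
  ∀ D : Finset (Fin N), D.card = γ →
    ∃ Z : Finset (Fin N), x < Z.card ∧ ∀ v ∈ Z, v ∉ D ∧ ∀ d ∈ D, ¬ H.Adj d v

lemma not_contained_of_undominated {n x γ : ℕ} (G : SimpleGraph (Fin n))
    (H : SimpleGraph (Fin (n + x))) (hγ : γ ≤ n + x) (hH : Undominated H γ x)
    (D : Finset (Fin n)) (hD : D.card ≤ γ) (hdom : ∀ v, v ∉ D → ∃ d ∈ D, G.Adj d v) :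
    ¬ (G ⊑ H) := by
  classical
  rintro ⟨φ⟩
  have hinj : Function.Injective φ := φ.injective
  have hc : (D.image φ).card ≤ γ := card_image_le.trans hD
  obtain ⟨D', hD'1, hD'2⟩ := Finset.exists_superset_card_eq hc (by simpa using hγ)
  obtain ⟨Z, hZ, hZ'⟩ := hH D' hD'2
  have hdisj : Disjoint Z (univ.image φ) := by
    rw [Finset.disjoint_left]
    intro v hv hv'
    rw [mem_image] at hv'
    obtain ⟨u, _, rfl⟩ := hv'
    have h1 := hZ' _ hv
    have hu : u ∉ D := fun h => h1.1 (hD'1 (mem_image_of_mem _ h))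
    obtain ⟨d, hd, hadj⟩ := hdom u hu
    exact h1.2 (φ d) (hD'1 (mem_image_of_mem _ hd)) (φ.toHom.map_adj hadj)
  have h1 := card_le_univ (Z ∪ univ.image φ)
  rw [card_union_of_disjoint hdisj, card_image_of_injective _ hinj] at h1
  simp at h1
  omega

lemma not_arrows_of_no_dom {n γ : ℕ} (hn : 1 ≤ n) (G : SimpleGraph (Fin n))
    (hG : ∀ v, ∃ w, G.Adj v w)
    (hdom : ∀ D : Finset (Fin n), D.card ≤ γ → ∃ v, v ∉ D ∧ ∀ d ∈ D, ¬ G.Adj d v) :
    ¬ Arrows G (n - 1 + γ) := by
  classical
  intro harr
  let H : SimpleGraph (Fin (n - 1 + γ)) :=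
    { Adj := fun u v => u ≠ v ∧ u.val < n - 1 ∧ v.val < n - 1
      symm := ⟨fun _ _ h => ⟨h.1.symm, h.2.2, h.2.1⟩⟩
      loopless := ⟨fun _ h => h.1 rfl⟩ }
  rcases harr H with h | h
  · obtain ⟨φ⟩ := h
    have h1 : ∀ v, (φ v).val < n - 1 := by
      intro v
      obtain ⟨w, hw⟩ := hG v
      exact (φ.toHom.map_adj hw).2.1
    have h2 : Function.Injective (fun v : Fin n => (⟨(φ v).val, h1 v⟩ : Fin (n - 1))) := by
      intro a b hab
      apply φ.injective
      have := congrArg Fin.val hab
      exact Fin.ext this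
    have h3 := Fintype.card_le_of_injective _ h2
    simp at h3
    omega
  · obtain ⟨φ⟩ := h
    set S : Finset (Fin n) := univ.filter (fun v => ¬ (φ v).val < n - 1) with hS
    have hmS : ∀ v, v ∈ S ↔ ¬ (φ v).val < n - 1 := by
      intro v
      rw [hS, mem_filter]
      simp
    have hSc : S.card ≤ γ := by
      have h2 : Function.Injective (fun v : S => (⟨(φ v.1).val - (n - 1), by
          have := (φ v.1).isLt
          have h3 := (hmS v.1).1 v.2
          omega⟩ : Fin γ)) := by
        intro a b hab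
        apply Subtype.ext
        apply φ.injective
        have h5 := congrArg Fin.val hab
        simp only at h5
        have ha := (hmS a.1).1 a.2
        have hb := (hmS b.1).1 b.2
        apply Fin.ext
        have e1 : (φ.toHom a.1).val = (φ a.1).val := rfl
        have e2 : (φ.toHom b.1).val = (φ b.1).val := rfl
        omega
      have h3 := Fintype.card_le_of_injective _ h2
      simpa using h3
    obtain ⟨v, hv, hvd⟩ := hdom S hSc
    obtain ⟨w, hw⟩ := hG v
    have hwS : w ∉ S := fun h => hvd w h hw.symm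
    rw [hS, mem_filter] at hv hwS
    push Not at hv hwS
    have hv' := hv (mem_univ _)
    have hw' := hwS (mem_univ _)
    have h1 := φ.toHom.map_adj hw
    rw [SimpleGraph.compl_adj] at h1
    exact h1.2 ⟨h1.1, hv', hw'⟩

theorem ramsey_lower {n γ x : ℕ} (hn : 1 ≤ n) (hγ : γ ≤ x + 1)
    (H : SimpleGraph (Fin (n + x))) (h1 : Undominated H γ x) (h2 : Undominated Hᶜ γ x)
    (G : SimpleGraph (Fin n)) (hG : ∀ v, ∃ w, G.Adj v w) : n + γ ≤ ramseyNumber G := by
  classical
  by_cases hdom : ∃ D : Finset (Fin n), D.card ≤ γ ∧ ∀ v, v ∉ D → ∃ d ∈ D, G.Adj d v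
  · obtain ⟨D, hD, hdom⟩ := hdom
    have h3 : ¬ Arrows G (n + x) := by
      intro harr
      rcases harr H with h | h
      · exact not_contained_of_undominated G H (by omega) h1 D hD hdom h
      · exact not_contained_of_undominated G Hᶜ (by omega) h2 D hD hdom h
    have := lt_ramseyNumber G _ h3
    omega
  · push Not at hdom
    have h3 := not_arrows_of_no_dom (γ := γ) hn G hG hdom
    have := lt_ramseyNumber G _ h3
    omega

/-! ### Counting colourings -/

lemma count_pi {A B : Type} [Fintype A] [Fintype B] [DecidableEq A] [DecidableEq B] (i : A → B)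
    (hi : Function.Injective i) (P : (A → Bool) → Prop) :
    Nat.card {c : B → Bool // P (c ∘ i)} * 2 ^ Fintype.card A =
      Nat.card {h : A → Bool // P h} * 2 ^ Fintype.card B := by
  classical
  let C := {b : B // ¬ b ∈ Set.range i}
  let e0 : A ≃ {b : B // b ∈ Set.range i} := Equiv.ofInjective i hi
  let e1 : (B → Bool) ≃ ({b : B // b ∈ Set.range i} → Bool) × (C → Bool) :=
    Equiv.piEquivPiSubtypeProd (fun b => b ∈ Set.range i) (fun _ => Bool)
  let e2 : ({b : B // b ∈ Set.range i} → Bool) ≃ (A → Bool) := Equiv.arrowCongr e0.symm (Equiv.refl _)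
  let e : (B → Bool) ≃ (A → Bool) × (C → Bool) := e1.trans (Equiv.prodCongr e2 (Equiv.refl _))
  have he : ∀ c : B → Bool, (e c).1 = c ∘ i := by
    intro c
    funext a
    rfl
  have h1 : Nat.card {c : B → Bool // P (c ∘ i)} = Nat.card ({h : A → Bool // P h} × (C → Bool)) := by
    apply Nat.card_congr
    let f : {c : B → Bool // P (c ∘ i)} ≃ {p : (A → Bool) × (C → Bool) // P p.1} :=
      e.subtypeEquiv (fun c => by rw [he c])
    let g : {p : (A → Bool) × (C → Bool) // P p.1} ≃ {h : A → Bool // P h} × (C → Bool) :=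
      { toFun := fun p => (⟨p.1.1, p.2⟩, p.1.2)
        invFun := fun p => ⟨(p.1.1, p.2), p.1.2⟩
        left_inv := fun _ => rfl
        right_inv := fun _ => rfl }
    exact f.trans g
  rw [h1, Nat.card_prod]
  have h2 : Nat.card (C → Bool) * 2 ^ Fintype.card A = 2 ^ Fintype.card B := by
    have h3 : Nat.card (B → Bool) = Nat.card (A → Bool) * Nat.card (C → Bool) := by
      rw [Nat.card_congr e, Nat.card_prod]
    rw [Nat.card_eq_fintype_card, Nat.card_eq_fintype_card, Fintype.card_fun, Fintype.card_fun,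
      Fintype.card_bool] at h3
    rw [h3]
    ring
  rw [mul_assoc, h2]

lemma count_forall_exists (S D : Type) [Fintype S] [Fintype D] [DecidableEq S] [DecidableEq D]
    (b : Bool) :
    Nat.card {h : S × D → Bool // ∀ v, ∃ d, h (v, d) = b} =
      (2 ^ Fintype.card D - 1) ^ Fintype.card S := by
  classical
  have h1 : Nat.card {h : S × D → Bool // ∀ v, ∃ d, h (v, d) = b} =
      Nat.card (S → {g : D → Bool // ∃ d, g d = b}) := by
    apply Nat.card_congr
    exact
      { toFun := fun h v => ⟨fun d => h.1 (v, d), h.2 v⟩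
        invFun := fun f => ⟨fun p => (f p.1).1 p.2, fun v => (f v).2⟩
        left_inv := fun _ => rfl
        right_inv := fun _ => rfl }
  rw [h1, Nat.card_eq_fintype_card, Fintype.card_fun]
  congr 1
  have h2 : Fintype.card {g : D → Bool // ∃ d, g d = b} = Fintype.card (D → Bool) -
      Fintype.card {g : D → Bool // ¬ ∃ d, g d = b} := by
    rw [Fintype.card_subtype_compl]
    have := Fintype.card_subtype_le (fun g : D → Bool => ∃ d, g d = b)
    omega
  rw [h2, Fintype.card_fun, Fintype.card_bool]
  congr 1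
  rw [Fintype.card_eq_one_iff]
  refine ⟨⟨fun _ => !b, by simp⟩, ?_⟩
  rintro ⟨g, hg⟩
  apply Subtype.ext
  funext d
  push Not at hg
  have := hg d
  cases hgd : g d <;> cases b <;> simp_all

/-- number of colourings for which all the vertices of `S` see the colour `b` from `D` -/
lemma count_bad {N : ℕ} (S D : Finset (Fin N)) (hSD : Disjoint S D) (b : Bool) :
    Nat.card {c : Sym2 (Fin N) → Bool // ∀ v ∈ S, ∃ d ∈ D, c s(d, v) = b} *
      2 ^ (S.card * D.card) =
    (2 ^ D.card - 1) ^ S.card * 2 ^ Fintype.card (Sym2 (Fin N)) := by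
  classical
  let i : S × D → Sym2 (Fin N) := fun p => s(p.2.1, p.1.1)
  have hi : Function.Injective i := by
    rintro ⟨⟨v, hv⟩, ⟨d, hd⟩⟩ ⟨⟨v', hv'⟩, ⟨d', hd'⟩⟩ h
    simp only [i, Sym2.eq_iff] at h
    rcases h with ⟨rfl, rfl⟩ | ⟨rfl, rfl⟩
    · rfl
    · exact absurd hd (Finset.disjoint_left.1 hSD hv')
  have h1 := count_pi i hi (fun h => ∀ v, ∃ d, h (v, d) = b)
  rw [count_forall_exists] at h1
  simp only [Fintype.card_prod, Fintype.card_coe] at h1
  rw [← h1]
  congr 1
  apply Nat.card_congr
  apply Equiv.subtypeEquivRight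
  intro c
  constructor
  · intro h v
    obtain ⟨d, hd, hc⟩ := h v.1 v.2
    exact ⟨⟨d, hd⟩, hc⟩
  · intro h v hv
    obtain ⟨d, hd⟩ := h ⟨v, hv⟩
    exact ⟨d.1, d.2, hd⟩

/-- union bound -/
theorem exists_colouring (N γ x : ℕ) (hx : x ≤ N)
    (hineq : 2 * (N.choose γ * N.choose x * (2 ^ γ - 1) ^ (N - γ - x)) < (2 ^ γ) ^ (N - γ - x)) :
    ∃ H : SimpleGraph (Fin N), Undominated H γ x ∧ Undominated Hᶜ γ x := by
  classical
  set M := N - γ - x with hM
  -- the bad colourings
  let bad : Bool → Finset (Fin N) → Finset (Fin N) → Finset (Sym2 (Fin N) → Bool) :=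
    fun b D T => univ.filter (fun c => ∀ v, v ∉ D → v ∉ T → ∃ d ∈ D, c s(d, v) = b)
  have hbad : ∀ b, ∀ D ∈ powersetCard γ (univ : Finset (Fin N)),
      ∀ T ∈ powersetCard x (univ : Finset (Fin N)),
      (bad b D T).card * (2 ^ γ) ^ M ≤ (2 ^ γ - 1) ^ M * 2 ^ Fintype.card (Sym2 (Fin N)) := by
    intro b D hD T hT
    rw [mem_powersetCard] at hD hT
    have h1 : M ≤ (univ \ (D ∪ T)).card := by
      have h2 : (univ : Finset (Fin N)).card - (D ∪ T).card ≤ (univ \ (D ∪ T)).card :=
        Finset.le_card_sdiff _ _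
      have h3 := card_union_le D T
      rw [card_univ, Fintype.card_fin] at h2
      rw [hD.2, hT.2] at h3
      omega
    obtain ⟨S, hS, hSc⟩ := Finset.exists_subset_card_eq h1
    have hSD : Disjoint S D := by
      rw [Finset.disjoint_left]
      intro v hv hv'
      have := hS hv
      rw [mem_sdiff] at this
      exact this.2 (mem_union_left _ hv')
    have h4 := count_bad S D hSD b
    rw [hSc, hD.2] at h4
    have h5 : (bad b D T).card ≤
        Nat.card {c : Sym2 (Fin N) → Bool // ∀ v ∈ S, ∃ d ∈ D, c s(d, v) = b} := by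
      rw [Nat.card_eq_fintype_card, Fintype.card_subtype]
      apply card_le_card
      intro c hc
      simp only [bad, mem_filter, mem_univ, true_and] at hc ⊢
      intro v hv
      have := hS hv
      rw [mem_sdiff, mem_union] at this
      push Not at this
      exact hc v this.2.1 this.2.2
    calc (bad b D T).card * (2 ^ γ) ^ M ≤
        Nat.card {c : Sym2 (Fin N) → Bool // ∀ v ∈ S, ∃ d ∈ D, c s(d, v) = b} * (2 ^ γ) ^ M :=
          Nat.mul_le_mul_right _ h5
      _ = Nat.card {c : Sym2 (Fin N) → Bool // ∀ v ∈ S, ∃ d ∈ D, c s(d, v) = b} *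
          2 ^ (M * γ) := by rw [← pow_mul, mul_comm γ M]
      _ = _ := h4
  -- a good colouring
  obtain ⟨c, hc⟩ : ∃ c : Sym2 (Fin N) → Bool, ∀ b : Bool,
      ∀ D ∈ powersetCard γ (univ : Finset (Fin N)),
      ∀ T ∈ powersetCard x (univ : Finset (Fin N)), c ∉ bad b D T := by
    by_contra hcon
    push Not at hcon
    have hcover : (univ : Finset (Sym2 (Fin N) → Bool)) ⊆
        (univ : Finset Bool).biUnion (fun b =>
          (powersetCard γ (univ : Finset (Fin N))).biUnion (fun D =>
            (powersetCard x (univ : Finset (Fin N))).biUnion (fun T => bad b D T))) := by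
      intro c _
      obtain ⟨b, D, hD, T, hT, h⟩ := hcon c
      simp only [mem_biUnion]
      exact ⟨b, mem_univ _, D, hD, T, hT, h⟩
    have h1 := card_le_card hcover
    rw [card_univ, Fintype.card_fun, Fintype.card_bool] at h1
    have h2 : (2 ^ Fintype.card (Sym2 (Fin N))) ≤ ∑ b : Bool,
        ∑ D ∈ powersetCard γ (univ : Finset (Fin N)),
          ∑ T ∈ powersetCard x (univ : Finset (Fin N)), (bad b D T).card := by
      refine h1.trans (card_biUnion_le.trans ?_)
      apply sum_le_sum
      intro b _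
      refine card_biUnion_le.trans ?_
      apply sum_le_sum
      intro D _
      exact card_biUnion_le
    have h3 : (2 ^ Fintype.card (Sym2 (Fin N))) * (2 ^ γ) ^ M ≤
        (2 * (N.choose γ * N.choose x * (2 ^ γ - 1) ^ M)) * 2 ^ Fintype.card (Sym2 (Fin N)) := by
      calc (2 ^ Fintype.card (Sym2 (Fin N))) * (2 ^ γ) ^ M ≤ (∑ b : Bool,
        ∑ D ∈ powersetCard γ (univ : Finset (Fin N)),
          ∑ T ∈ powersetCard x (univ : Finset (Fin N)), (bad b D T).card) * (2 ^ γ) ^ M :=
            Nat.mul_le_mul_right _ h2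
        _ = ∑ b : Bool, ∑ D ∈ powersetCard γ (univ : Finset (Fin N)),
          ∑ T ∈ powersetCard x (univ : Finset (Fin N)), (bad b D T).card * (2 ^ γ) ^ M := by
            simp only [sum_mul]
        _ ≤ ∑ b : Bool, ∑ D ∈ powersetCard γ (univ : Finset (Fin N)),
          ∑ T ∈ powersetCard x (univ : Finset (Fin N)),
            (2 ^ γ - 1) ^ M * 2 ^ Fintype.card (Sym2 (Fin N)) := by
            apply sum_le_sum
            intro b _
            apply sum_le_sum
            intro D hD
            apply sum_le_sum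
            intro T hT
            exact hbad b D hD T hT
        _ = _ := by
            simp only [sum_const, card_powersetCard, card_univ, Fintype.card_fin, Fintype.card_bool,
              smul_eq_mul]
            ring
    have h4 : 0 < 2 ^ Fintype.card (Sym2 (Fin N)) := by positivity
    rw [mul_comm (2 ^ Fintype.card (Sym2 (Fin N)))] at h3
    have h5 := Nat.le_of_mul_le_mul_right h3 h4
    omega
  -- the graph
  let H : SimpleGraph (Fin N) :=
    { Adj := fun u v => u ≠ v ∧ c s(u, v) = true
      symm := ⟨fun u v h => ⟨h.1.symm, by rw [Sym2.eq_swap]; exact h.2⟩⟩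
      loopless := ⟨fun _ h => h.1 rfl⟩ }
  have hgen : ∀ (b : Bool) (H' : SimpleGraph (Fin N)),
      (∀ u v, H'.Adj u v → c s(u, v) = b) →
      (∀ u v, u ≠ v → c s(u, v) = b → H'.Adj u v) → Undominated H' γ x := by
    intro b H' hH' hH'' D hD
    by_contra hcon
    push Not at hcon
    set Z : Finset (Fin N) := univ.filter (fun v => v ∉ D ∧ ∀ d ∈ D, ¬ H'.Adj d v) with hZ
    have hZc : Z.card ≤ x := by
      by_contra hlt
      push Not at hlt
      obtain ⟨v, hv, hv'⟩ := hcon Z hlt
      rw [hZ, mem_filter] at hv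
      obtain ⟨d, hd, hdv⟩ := hv' hv.2.1
      exact hv.2.2 d hd hdv
    obtain ⟨T, hT1, hT2⟩ := Finset.exists_superset_card_eq hZc (by simpa using hx)
    apply hc b D (by rw [mem_powersetCard]; exact ⟨subset_univ _, hD⟩) T
      (by rw [mem_powersetCard]; exact ⟨subset_univ _, hT2⟩)
    simp only [bad, mem_filter, mem_univ, true_and]
    intro v hvD hvT
    by_contra hno
    push Not at hno
    apply hvT
    apply hT1
    rw [hZ, mem_filter]
    refine ⟨mem_univ _, hvD, ?_⟩
    intro d hd hadj
    exact hno d hd (hH' d v hadj)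
  refine ⟨H, hgen true H (fun u v h => h.2) (fun u v h1 h2 => ⟨h1, h2⟩), ?_⟩
  apply hgen false Hᶜ
  · intro u v h
    rw [SimpleGraph.compl_adj] at h
    have h2 : ¬ (u ≠ v ∧ c s(u, v) = true) := h.2
    have h3 : ¬ c s(u, v) = true := fun h4 => h2 ⟨h.1, h4⟩
    simpa using h3
  · intro u v h1 h2
    rw [SimpleGraph.compl_adj]
    refine ⟨h1, ?_⟩
    rintro ⟨_, h3⟩
    rw [h2] at h3
    exact absurd h3 (by simp)

end Pool.Agent.MinRamsey
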