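import Pool.Agent.helper44.MinRamsey.Upper
import Pool.Agent.helper44.MinRamsey.Lower

set_option autoImplicit false

namespace Pool.Agent.MinRamsey

open SimpleGraph Finset

lemma pow_aux (p : ℕ) : ∀ k : ℕ, p ^ (k + 1) + (k + 1) * p ^ k ≤ (p + 1) ^ (k + 1) := by
  intro k
  induction k with
  | zero => simp
  | succ k ih =>
    have h1 : (p + 1) ^ (k + 1 + 1) = (p + 1) * (p + 1) ^ (k + 1) := by ring
    have h2 := Nat.mul_le_mul_left (p + 1) ih
    rw [h1]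
    refine le_trans ?_ h2
    have h3 : (p + 1) * (p ^ (k + 1) + (k + 1) * p ^ k) =
        p ^ (k + 1 + 1) + (k + 1 + 1) * p ^ (k + 1) + (k + 1) * p ^ k := by ring
    rw [h3]
    exact Nat.le_add_right _ _

lemma pow_half (q : ℕ) (hq : 2 ≤ q) : (q - 1) ^ q * 2 ≤ q ^ q := by
  obtain ⟨p, rfl⟩ : ∃ p, q = p + 1 := ⟨q - 1, by omega⟩
  have h := pow_aux p p
  have h2 : p ^ (p + 1) ≤ (p + 1) * p ^ p := by
    rw [pow_succ]
    nlinarith [Nat.zero_le (p ^ p)]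
  simp only [Nat.add_sub_cancel]
  omega

lemma pow_bound (q t M : ℕ) (hq : 2 ≤ q) (hM : q * t ≤ M) : (q - 1) ^ M * 2 ^ t ≤ q ^ M := by
  obtain ⟨r, rfl⟩ : ∃ r, M = q * t + r := ⟨M - q * t, by omega⟩
  have h1 : ((q - 1) ^ q * 2) ^ t ≤ (q ^ q) ^ t := Nat.pow_le_pow_left (pow_half q hq) t
  rw [mul_pow, ← pow_mul, ← pow_mul] at h1
  have h2 : (q - 1) ^ r ≤ q ^ r := Nat.pow_le_pow_left (Nat.sub_le _ _) r
  calc (q - 1) ^ (q * t + r) * 2 ^ t = ((q - 1) ^ (q * t) * 2 ^ t) * (q - 1) ^ r := by ring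
    _ ≤ q ^ (q * t) * q ^ r := Nat.mul_le_mul h1 h2
    _ = q ^ (q * t + r) := by ring

/-- **Lower bound**. -/
theorem minRamsey_lower (n : ℕ) (hn : 2 ≤ n) :
    n + (Nat.log 2 n - 2 * Nat.log 2 (Nat.log 2 n) - 4) ≤ minRamsey n := by
  classical
  have hne : {r | ∃ G : SimpleGraph (Fin n), (∀ v, ∃ w, G.Adj v w) ∧ ramseyNumber G = r}.Nonempty := by
    refine ⟨_, ⊤, ?_, rfl⟩
    intro v
    have : Nontrivial (Fin n) := Fin.nontrivial_iff_two_le.mpr hn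
    obtain ⟨w, hw⟩ := exists_ne v
    exact ⟨w, by simpa using hw.symm⟩
  obtain ⟨G, hG, hGr⟩ := Nat.sInf_mem hne
  change ramseyNumber G = minRamsey n at hGr
  rw [← hGr]
  set m := Nat.log 2 n with hm
  set l := Nat.log 2 m with hl
  rcases Nat.eq_zero_or_pos (m - 2 * l - 4) with h0 | hpos
  · rw [h0]
    have h1 : ¬ Arrows G (n - 1 + 0) := by
      apply not_arrows_of_no_dom (by omega) G hG
      intro D hD
      have : D = ∅ := by
        rw [← card_eq_zero]; omega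
      subst this
      exact ⟨⟨0, by omega⟩, by simp, by simp⟩
    have := lt_ramseyNumber G _ h1
    omega
  · obtain ⟨γ, hγ⟩ : ∃ γ, γ = m - 2 * l - 4 := ⟨_, rfl⟩
    rw [← hγ] at hpos ⊢
    have hm1 : 2 ^ m ≤ n := Nat.pow_log_le_self 2 (by omega)
    have hm2 : n < 2 ^ (m + 1) := Nat.lt_pow_succ_log_self (by norm_num) n
    have hl2 : m < 2 ^ (l + 1) := Nat.lt_pow_succ_log_self (by norm_num) m
    have hmm : m < 2 ^ m := Nat.lt_two_pow_self
    have hsq : (m + 1) ^ 2 ≤ 2 ^ (2 * l + 2) := by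
      have : m + 1 ≤ 2 ^ (l + 1) := hl2
      calc (m + 1) ^ 2 ≤ (2 ^ (l + 1)) ^ 2 := Nat.pow_le_pow_left this 2
        _ = 2 ^ (2 * l + 2) := by rw [← pow_mul]; congr 1; ring
    have hqt : 2 ^ γ * (2 * (m + 1) ^ 2) ≤ 2 ^ (m - 1) := by
      calc 2 ^ γ * (2 * (m + 1) ^ 2) ≤ 2 ^ γ * (2 * 2 ^ (2 * l + 2)) :=
            Nat.mul_le_mul_left _ (Nat.mul_le_mul_left _ hsq)
        _ = 2 ^ (γ + 2 * l + 3) := by ring
        _ = 2 ^ (m - 1) := by congr 1; omega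
    have hmhalf : m ≤ 2 ^ (m - 1) := by
      have : m - 1 < 2 ^ (m - 1) := Nat.lt_two_pow_self
      omega
    have hdouble : 2 ^ m = 2 ^ (m - 1) + 2 ^ (m - 1) := by
      have : m = (m - 1) + 1 := by omega
      conv_lhs => rw [this, pow_succ]
      ring
    have hM : 2 ^ γ * (2 * (m + 1) ^ 2) ≤ n - γ := by omega
    have hq : 2 ≤ 2 ^ γ := by
      calc 2 = 2 ^ 1 := by norm_num
        _ ≤ 2 ^ γ := Nat.pow_le_pow_right (by norm_num) hpos
    have hb := pow_bound (2 ^ γ) (2 * (m + 1) ^ 2) (n - γ) hq hM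
    have hN : n + m ≤ 2 ^ (m + 2) := by
      have : 2 ^ (m + 2) = 2 ^ (m + 1) + 2 ^ (m + 1) := by ring
      have : 2 ^ m ≤ 2 ^ (m + 1) := Nat.pow_le_pow_right (by norm_num) (by omega)
      omega
    have hch : 2 * ((n + m).choose γ * (n + m).choose m) < 2 ^ (2 * (m + 1) ^ 2) := by
      calc 2 * ((n + m).choose γ * (n + m).choose m) ≤ 2 * ((n + m) ^ γ * (n + m) ^ m) :=
            Nat.mul_le_mul_left _ (Nat.mul_le_mul (Nat.choose_le_pow _ _) (Nat.choose_le_pow _ _))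
        _ = 2 * (n + m) ^ (γ + m) := by rw [pow_add]
        _ ≤ 2 * (2 ^ (m + 2)) ^ (γ + m) := Nat.mul_le_mul_left _ (Nat.pow_le_pow_left hN _)
        _ ≤ 2 * (2 ^ (m + 2)) ^ (2 * m) := Nat.mul_le_mul_left _
              (Nat.pow_le_pow_right (by positivity) (by omega))
        _ = 2 ^ (2 * m ^ 2 + 4 * m + 1) := by rw [← pow_mul]; ring
        _ < 2 ^ (2 * (m + 1) ^ 2) := Nat.pow_lt_pow_right (by norm_num) (by nlinarith)
    obtain ⟨H, hH1, hH2⟩ := exists_colouring (n + m) γ m (by omega) (by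
      have e : n + m - γ - m = n - γ := by omega
      rw [e]
      have hpos' : 0 < (2 ^ γ - 1) ^ (n - γ) := Nat.pow_pos (by omega)
      calc 2 * ((n + m).choose γ * (n + m).choose m * (2 ^ γ - 1) ^ (n - γ)) =
            (2 * ((n + m).choose γ * (n + m).choose m)) * (2 ^ γ - 1) ^ (n - γ) := by ring
        _ < 2 ^ (2 * (m + 1) ^ 2) * (2 ^ γ - 1) ^ (n - γ) := Nat.mul_lt_mul_of_pos_right hch hpos'
        _ = (2 ^ γ - 1) ^ (n - γ) * 2 ^ (2 * (m + 1) ^ 2) := by ring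
        _ ≤ (2 ^ γ) ^ (n - γ) := hb)
    exact ramsey_lower (by omega) (by omega) H hH1 hH2 G hG

end Pool.Agent.MinRamsey
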