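import Pool.Agent.helper44.MinRamsey.Defs

set_option autoImplicit false

namespace Pool.Agent.MinRamsey

open SimpleGraph Finset

/-! ### The simultaneous greedy embedding -/

section greedy

open Classical in
/-- red neighbours, outside the centres, of the centres in `J` -/
noncomputable def nb {V : Type} [Fintype V] (R : SimpleGraph V) {i : ℕ} (c : Fin i → V)
    (J : Finset (Fin i)) : Finset V :=
  univ.filter (fun v => (∀ j, c j ≠ v) ∧ ∃ j ∈ J, R.Adj (c j) v)

variable {V : Type} [Fintype V]

lemma mem_nb (R : SimpleGraph V) {i : ℕ} (c : Fin i → V) (J : Finset (Fin i)) (v : V) :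
    v ∈ nb R c J ↔ (∀ j, c j ≠ v) ∧ ∃ j ∈ J, R.Adj (c j) v := by
  simp [nb]

/-- `i` centres have been chosen and Hall's condition holds with surplus `k - i` -/
def Stage (R : SimpleGraph V) (s : ℕ → ℕ) (k i : ℕ) : Prop :=
  ∃ c : Fin i → V, Function.Injective c ∧ ∀ J : Finset (Fin i), J.Nonempty →
    (∑ j ∈ J, s j) + (k - i) ≤ (nb R c J).card

/-- Hall's theorem for stars -/
lemma hall (R : SimpleGraph V) (s : ℕ → ℕ) {i : ℕ} (c : Fin i → V)
    (h : ∀ J : Finset (Fin i), J.Nonempty → (∑ j ∈ J, s j) ≤ (nb R c J).card) :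
    ∃ l : (Σ j : Fin i, Fin (s j)) → V, Function.Injective l ∧
      ∀ p, (∀ j, c j ≠ l p) ∧ R.Adj (c p.1) (l p) := by
  classical
  have key := (Finset.all_card_le_biUnion_card_iff_exists_injective
    (fun p : (Σ j : Fin i, Fin (s j)) => nb R c {p.1})).1 (by
      intro S
      rcases S.eq_empty_or_nonempty with rfl | hS
      · simp
      have hJ : (S.image Sigma.fst).Nonempty := hS.image _
      have h1 := h _ hJ
      have h2 : S.card ≤ ∑ j ∈ S.image Sigma.fst, s j := by
        have hsub : S ⊆ (S.image Sigma.fst).sigma (fun j => (univ : Finset (Fin (s j)))) := by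
          intro p hp
          simp only [mem_sigma, mem_univ, and_true]
          exact mem_image_of_mem _ hp
        have := card_le_card hsub
        rw [card_sigma] at this
        simpa using this
      have h3 : nb R c (S.image Sigma.fst) ⊆ S.biUnion (fun p => nb R c {p.1}) := by
        intro v hv
        rw [mem_nb] at hv
        obtain ⟨hv1, j, hj, hadj⟩ := hv
        rw [mem_image] at hj
        obtain ⟨p, hp, rfl⟩ := hj
        rw [mem_biUnion]
        exact ⟨p, hp, by rw [mem_nb]; exact ⟨hv1, p.1, by simp, hadj⟩⟩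
      exact h2.trans (h1.trans (card_le_card h3)))
  obtain ⟨l, hl, hl'⟩ := key
  refine ⟨l, hl, fun p => ?_⟩
  have := hl' p
  rw [mem_nb] at this
  obtain ⟨h1, j, hj, h2⟩ := this
  rw [mem_singleton] at hj
  subst hj
  exact ⟨h1, h2⟩

/-- double counting -/
lemma double_count (R B : SimpleGraph V) (hRB : ∀ u v, u ≠ v → R.Adj u v ∨ B.Adj u v)
    (X Y : Finset V) (p q : ℕ) (hp : 1 ≤ p) (hq : 1 ≤ q) (hX : 2 * p ≤ X.card)
    (hY : 2 * q ≤ Y.card) :
    (∃ b ∈ Y, ∃ D : Finset V, D ⊆ X ∧ D.card = p ∧ ∀ v ∈ D, R.Adj b v) ∨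
    (∃ a ∈ X, ∃ D : Finset V, D ⊆ Y ∧ D.card = q ∧ ∀ v ∈ D, B.Adj a v) := by
  classical
  by_contra hcon
  push Not at hcon
  obtain ⟨h1, h2⟩ := hcon
  have h1' : ∀ b ∈ Y, (X.filter (fun v => R.Adj b v)).card ≤ p - 1 := by
    intro b hb
    by_contra hc
    push Not at hc
    obtain ⟨D, hD, hDc⟩ := Finset.exists_subset_card_eq (s := X.filter (fun v => R.Adj b v))
      (n := p) (by omega)
    obtain ⟨v, hv, hv'⟩ := h1 b hb D (hD.trans (filter_subset _ _)) hDc
    have := hD hv
    rw [mem_filter] at this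
    exact hv' this.2
  have h2' : ∀ a ∈ X, (Y.filter (fun v => B.Adj a v)).card ≤ q - 1 := by
    intro a ha
    by_contra hc
    push Not at hc
    obtain ⟨D, hD, hDc⟩ := Finset.exists_subset_card_eq (s := Y.filter (fun v => B.Adj a v))
      (n := q) (by omega)
    obtain ⟨v, hv, hv'⟩ := h2 a ha D (hD.trans (filter_subset _ _)) hDc
    have := hD hv
    rw [mem_filter] at this
    exact hv' this.2
  have s1 : ∑ b ∈ Y, (X.filter (fun v => R.Adj b v)).card ≤ Y.card * (p - 1) := by
    have := Finset.sum_le_card_nsmul Y _ _ h1'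
    simpa using this
  have s2 : ∑ a ∈ X, (Y.filter (fun v => B.Adj a v)).card ≤ X.card * (q - 1) := by
    have := Finset.sum_le_card_nsmul X _ _ h2'
    simpa using this
  have s3 : ∑ b ∈ Y, (X.filter (fun v => R.Adj b v)).card =
      ∑ a ∈ X, (Y.filter (fun b => R.Adj b a)).card := by
    simp only [card_filter]
    rw [sum_comm]
  have s4 : X.card * (Y.card - 1) ≤ ∑ a ∈ X, ((Y.filter (fun b => R.Adj b a)).card +
      (Y.filter (fun v => B.Adj a v)).card) := by
    have : ∀ a ∈ X, Y.card - 1 ≤ (Y.filter (fun b => R.Adj b a)).card +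
      (Y.filter (fun v => B.Adj a v)).card := by
      intro a _
      have hsub : Y.erase a ⊆ (Y.filter (fun b => R.Adj b a)) ∪ (Y.filter (fun v => B.Adj a v)) := by
        intro b hb
        rw [mem_erase] at hb
        rw [mem_union, mem_filter, mem_filter]
        rcases hRB b a hb.1 with h | h
        · left; exact ⟨hb.2, h⟩
        · right; exact ⟨hb.2, h.symm⟩
      have h5 := card_le_card hsub
      have h6 := card_union_le (Y.filter (fun b => R.Adj b a)) (Y.filter (fun v => B.Adj a v))
      have h7 := Finset.pred_card_le_card_erase (s := Y) (a := a)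
      omega
    have := Finset.card_nsmul_le_sum X _ _ this
    simpa using this
  rw [sum_add_distrib, ← s3] at s4
  -- arithmetic
  obtain ⟨p', rfl⟩ : ∃ p', p = p' + 1 := ⟨p - 1, by omega⟩
  obtain ⟨q', rfl⟩ : ∃ q', q = q' + 1 := ⟨q - 1, by omega⟩
  obtain ⟨y, hy⟩ : ∃ y, Y.card = y + 1 := ⟨Y.card - 1, by omega⟩
  obtain ⟨x, hx⟩ : ∃ x, X.card = x + 1 := ⟨X.card - 1, by omega⟩
  rw [hy] at s1 s4 hY
  rw [hx] at s2 s4 hX
  simp only [Nat.add_sub_cancel] at s1 s2 s4
  nlinarith [mul_le_mul_of_nonneg_left hX (Nat.zero_le (y + 1)),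
    mul_le_mul_of_nonneg_left hY (Nat.zero_le (x + 1))]

/-- adding a centre -/
lemma extend (R : SimpleGraph V) (s : ℕ → ℕ) (k i : ℕ) (hik : i < k) (c : Fin i → V)
    (hc : Function.Injective c)
    (hJ : ∀ J : Finset (Fin i), J.Nonempty → (∑ j ∈ J, s j) + (k - i) ≤ (nb R c J).card)
    (l : (Σ j : Fin i, Fin (s j)) → V) (hl : Function.Injective l)
    (hl' : ∀ p, (∀ j, c j ≠ l p) ∧ R.Adj (c p.1) (l p))
    (b : V) (hb : ∀ j, c j ≠ b) (D : Finset V) (hD : D.card = s i + (k - i))
    (hDadj : ∀ v ∈ D, R.Adj b v) (hDc : ∀ v ∈ D, ∀ j, c j ≠ v) (hDl : ∀ v ∈ D, ∀ p, l p ≠ v) :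
    Stage R s k (i + 1) := by
  classical
  refine ⟨Fin.snoc (α := fun _ => V) c b, ?_, ?_⟩
  · intro u v
    refine Fin.lastCases ?_ ?_ u
    · refine Fin.lastCases ?_ ?_ v
      · intro _; rfl
      · intro v h
        simp only [Fin.snoc_last, Fin.snoc_castSucc] at h
        exact absurd h.symm (hb v)
    · intro u
      refine Fin.lastCases ?_ ?_ v
      · intro h
        simp only [Fin.snoc_last, Fin.snoc_castSucc] at h
        exact absurd h (hb u)
      · intro v h
        simp only [Fin.snoc_castSucc] at h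
        rw [hc h]
  · intro J hJne
    set J' : Finset (Fin i) := univ.filter (fun j => j.castSucc ∈ J) with hJ'
    have hsum : ∑ j ∈ J, s j = ∑ j ∈ J', s j + if Fin.last i ∈ J then s i else 0 := by
      have e1 : ∑ j ∈ J, s j = ∑ j : Fin (i + 1), if j ∈ J then s j else 0 := by
        rw [Finset.sum_ite_mem, Finset.univ_inter]
      rw [e1, Fin.sum_univ_castSucc, hJ', Finset.sum_filter]
      simp
    have hmemc : ∀ v, v ≠ b → (∀ j, c j ≠ v) → ∀ j, Fin.snoc (α := fun _ => V) c b j ≠ v := by
      intro v hv hv' j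
      refine Fin.lastCases ?_ ?_ j
      · simpa using hv.symm
      · intro j; simpa using hv' j
    by_cases hlast : Fin.last i ∈ J
    · rw [if_pos hlast] at hsum
      set L : Finset V := (J'.sigma (fun j => (univ : Finset (Fin (s j))))).image l with hL
      have hLcard : L.card = ∑ j ∈ J', s j := by
        rw [hL, card_image_of_injective _ hl, card_sigma]
        simp
      have hdisj : Disjoint L D := by
        rw [Finset.disjoint_left]
        intro v hv hvD
        rw [hL, mem_image] at hv
        obtain ⟨p, _, rfl⟩ := hv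
        exact hDl _ hvD p rfl
      have hsub : L ∪ D ⊆ insert b (nb R (Fin.snoc (α := fun _ => V) c b) J) := by
        intro v hv
        rw [mem_insert]
        by_cases hvb : v = b
        · left; exact hvb
        right
        rw [mem_union] at hv
        rw [mem_nb]
        rcases hv with hv | hv
        · rw [hL, mem_image] at hv
          obtain ⟨p, hp, rfl⟩ := hv
          rw [mem_sigma, hJ', mem_filter] at hp
          refine ⟨hmemc _ hvb (hl' p).1, p.1.castSucc, hp.1.2, ?_⟩
          rw [Fin.snoc_castSucc]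
          exact (hl' p).2
        · refine ⟨hmemc _ hvb (hDc v hv), Fin.last i, hlast, ?_⟩
          rw [Fin.snoc_last]
          exact hDadj v hv
      have h1 := card_le_card hsub
      rw [card_union_of_disjoint hdisj, hLcard, hD] at h1
      have h2 := card_insert_le b (nb R (Fin.snoc (α := fun _ => V) c b) J)
      omega
    · rw [if_neg hlast] at hsum
      have hJ'ne : J'.Nonempty := by
        obtain ⟨j, hj⟩ := hJne
        have : j ≠ Fin.last i := fun h => hlast (h ▸ hj)
        obtain ⟨j', rfl⟩ : ∃ j' : Fin i, j = j'.castSucc :=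
          ⟨j.castPred this, by simp⟩
        exact ⟨j', by rw [hJ', mem_filter]; exact ⟨mem_univ _, hj⟩⟩
      have h0 := hJ J' hJ'ne
      have hsub : nb R c J' ⊆ insert b (nb R (Fin.snoc (α := fun _ => V) c b) J) := by
        intro v hv
        rw [mem_insert]
        by_cases hvb : v = b
        · left; exact hvb
        right
        rw [mem_nb] at hv ⊢
        obtain ⟨hv1, j, hj, hadj⟩ := hv
        rw [hJ', mem_filter] at hj
        refine ⟨hmemc _ hvb hv1, j.castSucc, hj.2, ?_⟩
        rw [Fin.snoc_castSucc]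
        exact hadj
      have h1 := card_le_card hsub
      have h2 := card_insert_le b (nb R (Fin.snoc (α := fun _ => V) c b) J)
      omega

/-- one step of the simultaneous greedy procedure -/
lemma step (R B : SimpleGraph V) (hRB : ∀ u v, u ≠ v → R.Adj u v ∨ B.Adj u v) (s : ℕ → ℕ)
    (k : ℕ) (hs : ∀ i < k, 2 * (s i + (k - i)) + i + ∑ j ∈ range i, s j + (k - 1) ≤ Fintype.card V)
    (i i' : ℕ) (hi : i < k) (hi' : i' < k) (h1 : Stage R s k i) (h2 : Stage B s k i') :
    Stage R s k (i + 1) ∨ Stage B s k (i' + 1) := by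
  classical
  obtain ⟨c, hc, hJ⟩ := h1
  obtain ⟨c', hc', hJ'⟩ := h2
  obtain ⟨l, hl, hlp⟩ := hall R s c (fun J hJn => (Nat.le_add_right _ _).trans (hJ J hJn))
  obtain ⟨l', hl', hlp'⟩ := hall B s c' (fun J hJn => (Nat.le_add_right _ _).trans (hJ' J hJn))
  set X : Finset V := univ \ ((univ.image c ∪ univ.image l) ∪ univ.image c') with hX
  set Y : Finset V := univ \ ((univ.image c' ∪ univ.image l') ∪ univ.image c) with hY
  have hcardsig : ∀ a : ℕ, Fintype.card (Σ j : Fin a, Fin (s j)) = ∑ j ∈ range a, s j := by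
    intro a
    rw [Fintype.card_sigma]
    simp only [Fintype.card_fin]
    rw [Finset.sum_range]
  have hXc : Fintype.card V ≤ X.card + (i + ∑ j ∈ range i, s j + i') := by
    have e1 : (univ : Finset V).card - ((univ.image c ∪ univ.image l) ∪ univ.image c').card ≤ X.card :=
      Finset.le_card_sdiff _ _
    have e2 : ((univ.image c ∪ univ.image l) ∪ univ.image c').card ≤ i + ∑ j ∈ range i, s j + i' := by
      refine (card_union_le _ _).trans ?_
      have e3 : (univ.image c ∪ univ.image l).card ≤ i + ∑ j ∈ range i, s j := by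
        refine (card_union_le _ _).trans ?_
        have a1 : (univ.image c).card ≤ i := by
          simpa using (card_image_le (s := (univ : Finset (Fin i))) (f := c))
        have a2 : (univ.image l).card ≤ ∑ j ∈ range i, s j := by
          have := card_image_le (s := (univ : Finset (Σ j : Fin i, Fin (s j)))) (f := l)
          rw [card_univ, hcardsig] at this
          exact this
        omega
      have a3 : (univ.image c').card ≤ i' := by
        simpa using (card_image_le (s := (univ : Finset (Fin i'))) (f := c'))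
      omega
    rw [card_univ] at e1
    omega
  have hYc : Fintype.card V ≤ Y.card + (i' + ∑ j ∈ range i', s j + i) := by
    have e1 : (univ : Finset V).card - ((univ.image c' ∪ univ.image l') ∪ univ.image c).card ≤ Y.card :=
      Finset.le_card_sdiff _ _
    have e2 : ((univ.image c' ∪ univ.image l') ∪ univ.image c).card ≤ i' + ∑ j ∈ range i', s j + i := by
      refine (card_union_le _ _).trans ?_
      have e3 : (univ.image c' ∪ univ.image l').card ≤ i' + ∑ j ∈ range i', s j := by
        refine (card_union_le _ _).trans ?_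
        have a1 : (univ.image c').card ≤ i' := by
          simpa using (card_image_le (s := (univ : Finset (Fin i'))) (f := c'))
        have a2 : (univ.image l').card ≤ ∑ j ∈ range i', s j := by
          have := card_image_le (s := (univ : Finset (Σ j : Fin i', Fin (s j)))) (f := l')
          rw [card_univ, hcardsig] at this
          exact this
        omega
      have a3 : (univ.image c).card ≤ i := by
        simpa using (card_image_le (s := (univ : Finset (Fin i))) (f := c))
      omega
    rw [card_univ] at e1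
    omega
  have hs1 := hs i hi
  have hs2 := hs i' hi'
  rcases double_count R B hRB X Y (s i + (k - i)) (s i' + (k - i')) (by omega) (by omega)
    (by omega) (by omega) with ⟨b, hb, D, hDX, hDc, hDadj⟩ | ⟨a, ha, D, hDY, hDc, hDadj⟩
  · left
    have hb' : b ∉ univ.image c := by
      intro h
      rw [hY, mem_sdiff] at hb
      exact hb.2 (mem_union_right _ h)
    refine extend R s k i hi c hc hJ l hl hlp b ?_ D hDc hDadj ?_ ?_
    · intro j hj
      exact hb' (by rw [← hj]; exact mem_image_of_mem _ (mem_univ _))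
    · intro v hv j hj
      have := hDX hv
      rw [hX, mem_sdiff] at this
      apply this.2
      rw [← hj]
      exact mem_union_left _ (mem_union_left _ (mem_image_of_mem _ (mem_univ _)))
    · intro v hv p hp
      have := hDX hv
      rw [hX, mem_sdiff] at this
      apply this.2
      rw [← hp]
      exact mem_union_left _ (mem_union_right _ (mem_image_of_mem _ (mem_univ _)))
  · right
    have ha' : a ∉ univ.image c' := by
      intro h
      rw [hX, mem_sdiff] at ha
      exact ha.2 (mem_union_right _ h)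
    refine extend B s k i' hi' c' hc' hJ' l' hl' hlp' a ?_ D hDc hDadj ?_ ?_
    · intro j hj
      exact ha' (by rw [← hj]; exact mem_image_of_mem _ (mem_univ _))
    · intro v hv j hj
      have := hDY hv
      rw [hY, mem_sdiff] at this
      apply this.2
      rw [← hj]
      exact mem_union_left _ (mem_union_left _ (mem_image_of_mem _ (mem_univ _)))
    · intro v hv p hp
      have := hDY hv
      rw [hY, mem_sdiff] at this
      apply this.2
      rw [← hp]
      exact mem_union_left _ (mem_union_right _ (mem_image_of_mem _ (mem_univ _)))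

lemma stage_zero (R : SimpleGraph V) (s : ℕ → ℕ) (k : ℕ) : Stage R s k 0 := by
  refine ⟨Fin.elim0, fun u => u.elim0, ?_⟩
  intro J hJ
  obtain ⟨j, _⟩ := hJ
  exact j.elim0

lemma run (R B : SimpleGraph V) (hRB : ∀ u v, u ≠ v → R.Adj u v ∨ B.Adj u v) (s : ℕ → ℕ)
    (k : ℕ) (hs : ∀ i < k, 2 * (s i + (k - i)) + i + ∑ j ∈ range i, s j + (k - 1) ≤ Fintype.card V) :
    Stage R s k k ∨ Stage B s k k := by
  have key : ∀ m : ℕ, ∃ i i', i ≤ k ∧ i' ≤ k ∧ Stage R s k i ∧ Stage B s k i' ∧
      (i = k ∨ i' = k ∨ m ≤ i + i') := by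
    intro m
    induction m with
    | zero => exact ⟨0, 0, by omega, by omega, stage_zero R s k, stage_zero B s k, by omega⟩
    | succ m ih =>
      obtain ⟨i, i', hi, hi', h1, h2, h3⟩ := ih
      by_cases hik : i = k
      · exact ⟨i, i', hi, hi', h1, h2, Or.inl hik⟩
      by_cases hik' : i' = k
      · exact ⟨i, i', hi, hi', h1, h2, Or.inr (Or.inl hik')⟩
      rcases step R B hRB s k hs i i' (by omega) (by omega) h1 h2 with h | h
      · exact ⟨i + 1, i', by omega, hi', h, h2, by omega⟩
      · exact ⟨i, i' + 1, hi, by omega, h1, h, by omega⟩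
  obtain ⟨i, i', hi, hi', h1, h2, h3⟩ := key (2 * k)
  by_cases hik : i = k
  · left; rw [← hik] at h1 ⊢; exact h1
  · right
    have : i' = k := by omega
    rw [this] at h2; exact h2

end greedy

/-! ### Star forests -/

section stars

/-- the star forest with `k` stars, the `j`-th star having `s j` leaves -/
def starForest (s : ℕ → ℕ) (k : ℕ) : SimpleGraph (Σ j : Fin k, Option (Fin (s j))) where
  Adj u v := u.1 = v.1 ∧ ((u.2 = none ∧ v.2 ≠ none) ∨ (u.2 ≠ none ∧ v.2 = none))
  symm := ⟨fun _ _ h => ⟨h.1.symm, h.2.elim (fun h => Or.inr ⟨h.2, h.1⟩) (fun h => Or.inl ⟨h.2, h.1⟩)⟩⟩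
  loopless := ⟨fun _ h => h.2.elim (fun h => h.2 h.1) (fun h => h.1 h.2)⟩

lemma starForest_no_isolated (s : ℕ → ℕ) (k : ℕ) (hs : ∀ j < k, 1 ≤ s j)
    (v : Σ j : Fin k, Option (Fin (s j))) : ∃ w, (starForest s k).Adj v w := by
  obtain ⟨j, x⟩ := v
  cases x with
  | none => exact ⟨⟨j, some ⟨0, hs j j.2⟩⟩, rfl, Or.inl ⟨rfl, by simp⟩⟩
  | some a => exact ⟨⟨j, none⟩, rfl, Or.inr ⟨by simp, rfl⟩⟩

lemma contained_of_stage {V : Type} [Fintype V] (R : SimpleGraph V) (s : ℕ → ℕ) (k : ℕ)
    (h : Stage R s k k) : starForest s k ⊑ R := by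
  classical
  obtain ⟨c, hc, hJ⟩ := h
  obtain ⟨l, hl, hlp⟩ := hall R s c (fun J hJn => (Nat.le_add_right _ _).trans (hJ J hJn))
  let φ : (Σ j : Fin k, Option (Fin (s j))) → V := fun p =>
    match p with
    | ⟨j, none⟩ => c j
    | ⟨j, some a⟩ => l ⟨j, a⟩
  have hinj : Function.Injective φ := by
    rintro ⟨j, x⟩ ⟨j', x'⟩ h
    cases x with
    | none =>
      cases x' with
      | none =>
        have : c j = c j' := h
        rw [hc this]
      | some a' =>
        have : c j = l ⟨j', a'⟩ := h
        exact absurd this ((hlp ⟨j', a'⟩).1 j)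
    | some a =>
      cases x' with
      | none =>
        have : l ⟨j, a⟩ = c j' := h
        exact absurd this.symm ((hlp ⟨j, a⟩).1 j')
      | some a' =>
        have : l ⟨j, a⟩ = l ⟨j', a'⟩ := h
        have := hl this
        cases this
        rfl
  refine ⟨⟨⟨φ, ?_⟩, hinj⟩⟩
  rintro ⟨j, x⟩ ⟨j', x'⟩ ⟨h1, h2⟩
  simp only at h1
  subst h1
  cases x with
  | none =>
    cases x' with
    | none => simp at h2
    | some a' => exact (hlp ⟨j, a'⟩).2
  | some a =>
    cases x' with
    | none => exact (hlp ⟨j, a⟩).2.symm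
    | some a' => simp at h2

/-- a sequence of star sizes gives an upper bound for `minRamsey` -/
lemma minRamsey_le_of_sizes (n k N : ℕ) (s : ℕ → ℕ) (hs1 : ∀ j < k, 1 ≤ s j)
    (hsum : k + ∑ j ∈ range k, s j = n)
    (hs : ∀ i < k, 2 * (s i + (k - i)) + i + ∑ j ∈ range i, s j + (k - 1) ≤ N) :
    minRamsey n ≤ N := by
  classical
  have hcard : Fintype.card (Σ j : Fin k, Option (Fin (s j))) = n := by
    rw [Fintype.card_sigma]
    simp only [Fintype.card_option, Fintype.card_fin]
    rw [sum_add_distrib, ← Finset.sum_range (fun j => s j)]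
    simp
    omega
  let e : (Σ j : Fin k, Option (Fin (s j))) ≃ Fin n := Fintype.equivFinOfCardEq hcard
  let G : SimpleGraph (Fin n) := (starForest s k).comap e.symm
  have hG : ∀ v, ∃ w, G.Adj v w := by
    intro v
    obtain ⟨w, hw⟩ := starForest_no_isolated s k hs1 (e.symm v)
    refine ⟨e w, ?_⟩
    simp only [G, SimpleGraph.comap_adj, Equiv.symm_apply_apply]
    exact hw
  have hGF : G ⊑ starForest s k :=
    ⟨⟨⟨e.symm, fun {a b} h => h⟩, e.symm.injective⟩⟩
  have harr : Arrows G N := by
    intro H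
    rcases run H Hᶜ (fun u v huv => by
      rw [SimpleGraph.compl_adj]
      by_cases h : H.Adj u v
      · exact Or.inl h
      · exact Or.inr ⟨huv, h⟩) s k (by simpa using hs) with h | h
    · left; exact hGF.trans (contained_of_stage _ _ _ h)
    · right; exact hGF.trans (contained_of_stage _ _ _ h)
  have h1 : ramseyNumber G ≤ N := Nat.sInf_le harr
  have h2 : minRamsey n ≤ ramseyNumber G := Nat.sInf_le ⟨G, hG, rfl⟩
  exact h2.trans h1

/-- existence of good sizes, in terms of the partial (tail) totals `T` -/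
lemma exists_totals (k : ℕ) : ∀ n : ℕ, 2 * k ≤ n → n + 1 ≤ 2 ^ k + 2 * k →
    ∃ T : ℕ → ℕ, T 0 = n ∧ T k = 0 ∧
      ∀ i < k, T (i + 1) + 2 ≤ T i ∧ 2 * (T i - T (i + 1)) + 2 * (k - i) ≤ T i + 5 := by
  induction k with
  | zero =>
    intro n _ h2
    exact ⟨fun _ => 0, by simp at h2 ⊢; omega, rfl, fun i hi => absurd hi (Nat.not_lt_zero i)⟩
  | succ k ih =>
    intro n h1 h2
    have hpow : 2 ^ (k + 1) = 2 * 2 ^ k := by ring
    have hpk : 1 ≤ 2 ^ k := Nat.one_le_two_pow
    rw [hpow] at h2
    -- the new tail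
    obtain ⟨n', hn1, hn2, hn3, hn4⟩ : ∃ n', 2 * k ≤ n' ∧ n' + 1 ≤ 2 ^ k + 2 * k ∧ n' + 2 ≤ n ∧
        n + 2 * k ≤ 2 * n' + 3 := by
      by_cases hcase : n ≤ 2 * k + 3
      · exact ⟨2 * k, le_rfl, by omega, by omega, by omega⟩
      · exact ⟨(n + 2 * k - 2) / 2, by omega, by omega, by omega, by omega⟩
    obtain ⟨T, hT0, hTk, hT⟩ := ih n' hn1 hn2
    refine ⟨fun i => if i = 0 then n else T (i - 1), by simp, by simpa using hTk, ?_⟩
    intro i hi
    rcases Nat.eq_zero_or_pos i with rfl | hpos
    · simp only [if_true, Nat.zero_add, one_ne_zero, if_false, Nat.sub_self, hT0]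
      constructor
      · omega
      · omega
    · have hne : i ≠ 0 := by omega
      have := hT (i - 1) (by omega)
      have e1 : i - 1 + 1 = i := by omega
      rw [e1] at this
      simp only [hne, if_false, Nat.add_sub_cancel, Nat.succ_ne_zero]
      refine ⟨this.1, ?_⟩
      have e2 : k - (i - 1) = k + 1 - i := by omega
      rw [e2] at this
      exact this.2

lemma minRamsey_le (n k : ℕ) (h1 : 2 * k ≤ n) (h2 : n + 1 ≤ 2 ^ k + 2 * k) :
    minRamsey n ≤ n + k + 2 := by
  obtain ⟨T, hT0, hTk, hT⟩ := exists_totals k n h1 h2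
  have htel : ∀ i ≤ k, i + ∑ j ∈ range i, (T j - T (j + 1) - 1) + T i = n := by
    intro i
    induction i with
    | zero => intro _; simp [hT0]
    | succ i ih =>
      intro hi
      have h3 := ih (by omega)
      have h4 := (hT i (by omega)).1
      rw [sum_range_succ]
      omega
  apply minRamsey_le_of_sizes n k (n + k + 2) (fun j => T j - T (j + 1) - 1)
  · intro j hj
    have := (hT j hj).1
    show 1 ≤ T j - T (j + 1) - 1
    omega
  · have := htel k le_rfl
    omega
  · intro i hi
    have h3 := htel i (by omega)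
    have h4 := hT i hi
    show 2 * (T i - T (i + 1) - 1 + (k - i)) + i + ∑ j ∈ range i, (T j - T (j + 1) - 1) + (k - 1) ≤ n + k + 2
    omega

/-- **Upper bound**: `f(n) ≤ n + ⌈log₂ n⌉ + 2` for all `n ≥ 2`. -/
theorem minRamsey_upper (n : ℕ) (hn : 2 ≤ n) : minRamsey n ≤ n + Nat.clog 2 n + 2 := by
  have h1 : n ≤ 2 ^ Nat.clog 2 n := Nat.le_pow_clog (by norm_num) n
  by_cases h3 : n = 3
  · subst h3
    have := minRamsey_le 3 1 (by norm_num) (by norm_num)
    have h6 : 0 < Nat.clog 2 3 := Nat.clog_pos (by norm_num) (by norm_num)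
    omega
  by_cases h5 : n = 5
  · subst h5
    have := minRamsey_le 5 2 (by norm_num) (by norm_num)
    have h6 : 2 ≤ Nat.clog 2 5 := by
      by_contra h
      have : Nat.clog 2 5 ≤ 1 := by omega
      have h7 : 2 ^ Nat.clog 2 5 ≤ 2 ^ 1 := Nat.pow_le_pow_right (by norm_num) this
      omega
    omega
  · apply minRamsey_le n (Nat.clog 2 n)
    · -- `2 * clog 2 n ≤ n`
      have h7 : 2 ^ (Nat.clog 2 n - 1) < n := Nat.pow_pred_clog_lt_self (by norm_num) (by omega)
      rcases Nat.lt_or_ge (Nat.clog 2 n) 4 with h | h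
      · interval_cases hh : Nat.clog 2 n <;> omega
      · obtain ⟨m, hm⟩ : ∃ m, Nat.clog 2 n = m + 4 := ⟨Nat.clog 2 n - 4, by omega⟩
        rw [hm] at h7 ⊢
        have h8 : 2 * (m + 4) ≤ 2 ^ (m + 4 - 1) := by
          have e : m + 4 - 1 = m + 3 := by omega
          rw [e]
          clear h7 hm h h1
          induction m with
          | zero => norm_num
          | succ m ih => rw [show m + 1 + 3 = (m + 3) + 1 by ring, pow_succ]; omega
        omega
    · have : 2 ≤ 2 * Nat.clog 2 n := by
        have : 0 < Nat.clog 2 n := Nat.clog_pos (by norm_num) hn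
        omega
      omega

end stars

end Pool.Agent.MinRamsey
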